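import Pool.Agent.W900.BJ.Orc
import Pool.Agent.W900.IM.Fin

/-!
# Bi-immune sets and changed strings
-/

set_option autoImplicit false

namespace Pool.Agent.W900.BJ

open Filter MeasureTheory Pool.Agent.NPC Pool.Agent.H620R2.Gauge
open Pool.Agent.W911.AL (poly_pow2 IsSigma)
open Pool.Agent.W911.KM (NullP NullQP IsE km_ae)
open Pool.Agent.W900.CH (Close)
open Pool.Agent.W900.RB (close_mono reg)
open Pool.Agent.W900.PM (ae_finite finite_of_close ae_ph small_id fair_eq poly_str exists_tasks)
open Pool.Agent.W900.IM (GG GG_mono GG_tendsto GG_le split_of_not_null infinite_of_lengths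
  poly_reg)
open Pool.Agent.H591R3.PHG (IsSig IsSigPoly)
open Pool.Agent.H628R3.RO (randomOracle)

attribute [local irreducible] unpair

/-! ## Random oracles -/

/-- the language `L` splits all infinite sets in `E` relative to `O` -/
def Splits (O : Oracle) (L : Set (List Bool)) : Prop :=
  ∀ S : Set (List Bool), S.Infinite → IsE O S → (S ∩ L).Infinite ∧ (S \ L).Infinite

theorem ae_splits : ∀ᵐ A ∂randomOracle, ∀ k : ℕ, ∃ L, IsSigma A (fun _ => k + 1) L ∧
    ∀ B, IsSigma A (fun _ => k) B → Splits (W911.KM.join A B) L := by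
  have h1 := km_ae
  rw [fair_eq] at h1
  filter_upwards [h1] with A hA k
  obtain ⟨L, hL, h⟩ := hA k 0
  refine ⟨L, hL, fun B hB S hS hE => split_of_not_null (fun X hX hN => ?_) hS hE⟩
  exact h B hB X hX (hN.nullQP 0)

/-! ## The parameters -/

/-- the bound for the questions of the machine number `i` -/
noncomputable def be (u : ℕ → Option (SAlg × Polynomial ℕ)) (i : ℕ) : Polynomial ℕ :=
  ((u i).map (fun q => q.2)).getD 0

/-- the length of the block -/
noncomputable def lb (u : ℕ → Option (SAlg × Polynomial ℕ)) (i k : ℕ) : ℕ :=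
  (be u i).eval (2 ^ k) + k

/-- the number of digits -/
def DD (k : ℕ) : ℕ := 2 * k + 1

/-- the tally string -/
def ty (k : ℕ) : List Bool := List.replicate (2 ^ k) false

open Classical in
/-- the message -/
noncomputable def ms (u : ℕ → Option (SAlg × Polynomial ℕ)) (A : Oracle) (i k j : ℕ) : Bool :=
  decide (j = 2 * k ∧ ∃ (M : SAlg) (b : Polynomial ℕ), u i = some (M, b) ∧
    CC.Acc M (CC.cut (b.eval (2 ^ k)) A) (ty k))

theorem ms_congr (u : ℕ → Option (SAlg × Polynomial ℕ)) (A A' : Oracle) (i k : ℕ)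
    (h : ∀ z : List Bool, z.length ≤ lb u i k → A z = A' z) : ms u A i k = ms u A' i k := by
  classical
  funext j
  unfold ms
  rw [decide_eq_decide]
  refine and_congr_right fun _ => exists_congr fun M => exists_congr fun b =>
    and_congr_right fun hu => ?_
  have h1 : CC.cut (b.eval (2 ^ k)) A = CC.cut (b.eval (2 ^ k)) A' := by
    apply PM.cut_congr
    intro z hz
    apply h
    refine hz.trans ?_
    unfold lb be
    rw [hu]
    exact Nat.le_add_right _ _
  rw [h1]

/-! ## The sets -/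

/-- the announced tally strings -/
def SP (u : ℕ → Option (SAlg × Polynomial ℕ)) (A : Oracle) (i k₀ : ℕ) (b : Bool) :
    Set (List Bool) :=
  {x | ∃ k ≥ k₀, x = ty k ∧ (∀ j < 2 * k, syn (lb u) DD A i k j = false) ∧
    syn (lb u) DD A i k (2 * k) = b}

/-- the logarithm -/
def kx (x : List Bool) : ℕ := (Nat.bits x.length).length - 1

theorem kx_ty (k : ℕ) : kx (ty k) = k := by
  unfold kx ty
  rw [List.length_replicate, Nat.size_eq_bits_len, Nat.size_pow]
  omega

theorem pow_kx (x : List Bool) : 2 ^ kx x ≤ x.length + 1 := by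
  unfold kx
  rw [Nat.size_eq_bits_len]
  rcases Nat.eq_zero_or_pos x.length with h | h
  · rw [h]
    simp
  · have h1 : 0 < Nat.size x.length := Nat.size_pos.2 h
    have h2 : 2 ^ (Nat.size x.length - 1) ≤ x.length :=
      Nat.lt_size.1 (by omega)
    omega

theorem upoly_pow_kx : UPoly (fun x : List Bool => 2 ^ kx x) := by
  have h0 : UPoly kx := by
    unfold kx
    exact UPoly.of_le (Poly.sub (Poly.length (Poly.natBits (Poly.length Poly.id)))
      (NPC.Poly.const 1)) (UPoly.length (Poly.natBits (Poly.length Poly.id)))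
        fun x => Nat.sub_le _ _
  exact UPoly.of_le (poly_pow2 h0) (UPoly.add (UPoly.length Poly.id) (UPoly.const 1))
    fun x => pow_kx x

theorem upoly_kx : UPoly kx := by
  unfold kx
  exact UPoly.of_le (Poly.sub (Poly.length (Poly.natBits (Poly.length Poly.id)))
    (NPC.Poly.const 1)) (UPoly.length (Poly.natBits (Poly.length Poly.id)))
      fun x => Nat.sub_le _ _

theorem isP_SP (u : ℕ → Option (SAlg × Polynomial ℕ)) (A : Oracle) (i k₀ : ℕ) (b : Bool) :
    IsP A (SP u A i k₀ b) := by
  have hN : UPoly (fun x : List Bool => 2 ^ (DD (kx x) + 1)) := by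
    have e : (fun x : List Bool => 2 ^ (DD (kx x) + 1)) =
        fun x : List Bool => 4 * (2 ^ kx x * 2 ^ kx x) := by
      funext x
      unfold DD
      rw [pow_succ, pow_succ, two_mul, pow_add]
      ring
    rw [e]
    exact UPoly.mul (UPoly.const 4) (UPoly.mul upoly_pow_kx upoly_pow_kx)
  have hlb : UPoly (fun x : List Bool => lb u i (kx x)) := by
    unfold lb
    exact UPoly.add (UPoly.eval upoly_pow_kx (be u i)) upoly_kx
  have hQ : Poly (fun x : List Bool => (List.range (2 ^ (DD (kx x) + 1))).map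
      (fun p => pos (lb u) i (kx x) p)) := by
    refine NPC.Poly.map (F := fun (x : List Bool) (p : ℕ) => pos (lb u) i (kx x) p) hN.range ?_
    unfold pos
    exact poly_reg (hlb.comp (Poly.fst Poly.id)) (poly_reg (UPoly.const i)
      (poly_reg (upoly_kx.comp (Poly.fst Poly.id)) (poly_str (Poly.snd Poly.id))))
  have hH : Poly (fun q : List Bool × List Bool =>
      [(decide (k₀ ≤ kx q.1) && decide (q.1 = List.replicate (2 ^ kx q.1) false)) &&
        ((List.range (2 * kx q.1)).all (fun j =>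
          !(PM.par (2 ^ (DD (kx q.1) + 1))
            (fun p => q.2.getD p false && (str p).getD j false))) &&
        decide (PM.par (2 ^ (DD (kx q.1) + 1))
            (fun p => q.2.getD p false && (str p).getD (2 * kx q.1) false) = b))]) := by
    have hk1 : UPoly (fun q : List Bool × List Bool => kx q.1) :=
      upoly_kx.comp (Poly.fst Poly.id)
    refine Poly.cons (Poly.and (Poly.and (Poly.decide_le (NPC.Poly.const k₀) hk1.toPoly)
      (Poly.decide_eq (Poly.fst Poly.id) (Pool.Agent.H628R3.RO.p_replicate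
        (upoly_pow_kx.comp (Poly.fst Poly.id)) false))) (Poly.and ?_ ?_)) (NPC.Poly.const [])
    · refine Poly.all (p := fun (q : List Bool × List Bool) (j : ℕ) =>
        !(PM.par (2 ^ (DD (kx q.1) + 1))
            (fun p => q.2.getD p false && (str p).getD j false)))
        (UPoly.mul (UPoly.const 2) hk1).range ?_
      exact Poly.not (IM.poly_par (hN.comp (Poly.fst (Poly.fst Poly.id)))
        (Poly.snd (Poly.fst Poly.id)) (Poly.snd Poly.id))
    · exact Poly.decide_eq (IM.poly_par (hN.comp (Poly.fst Poly.id)) (Poly.snd Poly.id)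
        (Poly.mul (NPC.Poly.const 2) hk1.toPoly)) (NPC.Poly.const b)
  refine ⟨_, IsFP.tt (A := A) hQ hH, fun x => ?_⟩
  have e3 : ∀ j, PM.par (2 ^ (DD (kx x) + 1)) (fun p =>
      (((List.range (2 ^ (DD (kx x) + 1))).map (fun p =>
        pos (lb u) i (kx x) p)).map A).getD p false && (str p).getD j false) =
      syn (lb u) DD A i (kx x) j := by
    intro j
    unfold syn
    apply PM.par_congr
    intro p hp
    congr 1
    rw [List.map_map, List.getD_eq_getElem?_getD, List.getElem?_map, List.getElem?_range hp]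
    rfl
  simp only [e3]
  simp only [SP, Set.mem_ofPred_eq, List.cons.injEq, and_true, Bool.and_eq_true,
    decide_eq_true_eq, List.all_eq_true, List.mem_range, Bool.not_eq_true']
  constructor
  · rintro ⟨k, hk, rfl, h1, h2⟩
    rw [kx_ty]
    exact ⟨⟨hk, rfl⟩, h1, h2⟩
  · rintro ⟨⟨h1, h2⟩, h3, h4⟩
    exact ⟨kx x, h1, h2, h3, h4⟩

theorem exists_sub {u : ℕ → Option (SAlg × Polynomial ℕ)} (hu : Function.Surjective u)
    {G : ℕ → ℕ} (hG : Tendsto G atTop atTop) {O A : Oracle}
    (hO : ∀ i, ∃ n₀, ∀ n ≥ n₀, ¬ ∀ j < 2 * n, syn (lb u) DD O i n j = false)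
    (hsyn : ∀ i n, used (lb u) G i n → ∀ j < DD n, syn (lb u) DD A i n j = ms u A i n j)
    (hsyn' : ∀ i n, ¬ used (lb u) G i n → ∀ j, syn (lb u) DD A i n j = syn (lb u) DD O i n j)
    {L : Set (List Bool)} (hL : IsPSPACE A L) :
    ∃ S : Set (List Bool), S.Infinite ∧ IsP A S ∧ (S ⊆ L ∨ S ⊆ Lᶜ) := by
  classical
  obtain ⟨M, p, hM⟩ := hL
  obtain ⟨b, hb⟩ := pspace_task M p
  obtain ⟨i, hi⟩ := hu (some (M, b))
  have hlen : ∀ k, (ty k).length = 2 ^ k := fun k => by
    unfold ty
    rw [List.length_replicate]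
  have hms : ∀ k, ms u A i k (2 * k) = true ↔ ty k ∈ L := by
    intro k
    have h3 := hb A L hM (ty k)
    rw [hlen] at h3
    rw [h3]
    unfold ms
    rw [decide_eq_true_iff]
    constructor
    · rintro ⟨_, M', b', h1, h2⟩
      rw [hi] at h1
      simp only [Option.some.injEq, Prod.mk.injEq] at h1
      obtain ⟨rfl, rfl⟩ := h1
      exact h2
    · intro h
      exact ⟨rfl, M, b, hi, h⟩
  obtain ⟨n₀, hn₀⟩ := hO i
  have hused : ∀ k, used (lb u) G i k → (∀ j < 2 * k, syn (lb u) DD A i k j = false) ∧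
      (syn (lb u) DD A i k (2 * k) = true ↔ ty k ∈ L) := by
    intro k hk
    refine ⟨fun j hj => ?_, ?_⟩
    · rw [hsyn i k hk j (by unfold DD; omega)]
      unfold ms
      rw [decide_eq_false_iff_not]
      rintro ⟨h, _⟩
      omega
    · rw [hsyn i k hk _ (by unfold DD; omega)]
      exact hms k
  have hmem : ∀ (c : Bool) (k : ℕ), k ≥ n₀ → (∀ j < 2 * k, syn (lb u) DD A i k j = false) →
      used (lb u) G i k := by
    intro c k hk h
    by_contra hu'
    apply hn₀ k hk
    intro j hj
    rw [← hsyn' i k hu' j]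
    exact h j hj
  have hinf := used_inf (lb := lb u) (fun i n => Nat.le_add_left _ _) hG (i := i)
  by_cases hc : ∀ N, ∃ k ≥ N, used (lb u) G i k ∧ ty k ∈ L
  · refine ⟨SP u A i n₀ true, ?_, isP_SP u A i n₀ true, Or.inl ?_⟩
    · apply infinite_of_lengths
      intro N
      obtain ⟨k, hk, h1, h2⟩ := hc (max N n₀)
      refine ⟨ty k, ⟨k, (le_max_right _ _).trans hk, rfl, (hused k h1).1,
        (hused k h1).2.2 h2⟩, ?_⟩
      rw [hlen]
      exact ((le_max_left _ _).trans hk).trans Nat.lt_two_pow_self.le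
    · rintro x ⟨k, hk, rfl, h1, h2⟩
      exact (hused k (hmem true k hk h1)).2.1 h2
  · push Not at hc
    obtain ⟨N₁, hN₁⟩ := hc
    refine ⟨SP u A i n₀ false, ?_, isP_SP u A i n₀ false, Or.inr ?_⟩
    · apply infinite_of_lengths
      intro N
      obtain ⟨k, hk, h1⟩ := hinf (max N (max N₁ n₀))
      have h2 := hN₁ k (((le_max_left _ _).trans (le_max_right _ _)).trans hk) h1
      refine ⟨ty k, ⟨k, ((le_max_right _ _).trans (le_max_right _ _)).trans hk, rfl,
        (hused k h1).1, ?_⟩, ?_⟩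
      · rw [Bool.eq_false_iff]
        exact fun h => h2 ((hused k h1).2.1 h)
      · rw [hlen]
        exact ((le_max_left _ _).trans hk).trans Nat.lt_two_pow_self.le
    · rintro x ⟨k, hk, rfl, h1, h2⟩ h3
      have h4 := (hused k (hmem false k hk h1)).2.2 h3
      rw [h2] at h4
      simp at h4

theorem ae_main : ∀ᵐ O ∂randomOracle,
    (∀ g : ℕ → ℝ, ¬ Tendsto g atTop atTop → ∀ A, Close g O A → ∀ k : ℕ,
      ∃ L, IsSigma A (fun _ => k + 1) L ∧
        ∀ B, IsSigma A (fun _ => k) B → Splits (W911.KM.join A B) L) ∧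
    ∀ g : ℕ → ℝ, Tendsto g atTop atTop → ∃ A, Close g O A ∧
      (∀ L, IsPSPACE A L → ∃ S : Set (List Bool), S.Infinite ∧ IsP A S ∧ (S ⊆ L ∨ S ⊆ Lᶜ)) ∧
      (∀ k, ∃ L, IsSig A (k + 1) L ∧ ¬ IsSigPoly A k L) ∧ ∃ f, OC.Hard A f := by
  obtain ⟨u, hu⟩ := exists_tasks
  filter_upwards [ae_finite ae_splits, ae_ph, OC.ae_est,
    ae_blocks (lb u) (D := DD) (m := fun n => 2 * n) (fun n => by unfold DD; omega)
      (fun n => by omega)] with O h2 h3 h4 h5
  refine ⟨fun g hg A hA => h2 A (finite_of_close hg hA), fun g hg => ?_⟩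
  have hmin : Tendsto (fun n : ℕ => min (g n) (n : ℝ)) atTop atTop :=
    tendsto_atTop.2 fun K => by
      filter_upwards [hg.eventually_ge_atTop K,
        (tendsto_natCast_atTop_atTop (R := ℝ)).eventually_ge_atTop K] with n h5 h6
      exact le_min h5 h6
  set g₁ : ℕ → ℝ := fun n => min (g n) (n : ℝ) with hg₁
  obtain ⟨A, hA, hs1, hs2⟩ := exists_orc (lb u) DD (used (lb u) (GG g₁)) (ms u)
    (ms_congr u) O
  have hcl : Close g₁ O A := by
    unfold CH.Close
    filter_upwards [GG_le hmin] with N hN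
    refine le_trans ?_ hN
    have h7 : CH.dist O A N ≤ GG g₁ N := dist_orc (GG_mono g₁)
      (P := fun i n => pst (lb u) DD (ms u) O A i n) (fun z hz => by
        rw [hA z, if_neg hz]) N
    exact_mod_cast h7
  have hc2 : Close (fun n => (n : ℝ)) O A := close_mono (fun n => min_le_right _ _) hcl
  refine ⟨A, close_mono (fun n => min_le_left _ _) hcl,
    fun L hL => exists_sub hu (GG_tendsto hmin) h5 hs1 hs2 hL, h3 A hc2, OW.ff A,
    OC.hard_of_close (fun ε hε => ?_) h4 hc2⟩
  filter_upwards [small_id ε hε] with n hn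
  exact ⟨n, le_refl _, hn⟩

end Pool.Agent.W900.BJ
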