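import Pool.Agent.W900.PM.Fin

/-!
# One change per block: the general form
-/

set_option autoImplicit false

namespace Pool.Agent.W900.BJ

open Filter MeasureTheory Pool.Agent.NPC Pool.Agent.H620R2.Gauge
open Pool.Agent.W900.BC (Loc Psi Psi_eq)
open Pool.Agent.W900.RB (reg reg_inj length_reg)
open Pool.Agent.W900.CH (Close finite_diff)
open Pool.Agent.W900.PM (par_flip flp map_flp)
open Pool.Agent.H628R3.RO (randomOracle)
open scoped ENNReal

/-- the string number `p` of the block `(i, n)` -/
def pos (lb : ℕ → ℕ → ℕ) (i n p : ℕ) : List Bool := reg (lb i n) (reg i (reg n (str p)))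

theorem pos_inj {lb : ℕ → ℕ → ℕ} {i n p i' n' p' : ℕ}
    (h : pos lb i n p = pos lb i' n' p') : i = i' ∧ n = n' ∧ p = p' := by
  obtain ⟨_, h2⟩ := reg_inj h
  obtain ⟨h3, h4⟩ := reg_inj h2
  obtain ⟨h5, h6⟩ := reg_inj h4
  exact ⟨h3, h5, str_injective h6⟩

theorem pos_len (lb : ℕ → ℕ → ℕ) (i n p : ℕ) : lb i n < (pos lb i n p).length := by
  unfold pos
  rw [length_reg]
  omega

/-- the digit number `j` of the sum of the indices of the ones of the block -/
def syn (lb : ℕ → ℕ → ℕ) (D : ℕ → ℕ) (A : Oracle) (i n j : ℕ) : Bool :=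
  PM.par (2 ^ (D n + 1)) (fun p => A (pos lb i n p) && (str p).getD j false)

/-- the index of the string which is changed -/
noncomputable def pst (lb : ℕ → ℕ → ℕ) (D : ℕ → ℕ) (ms : Oracle → ℕ → ℕ → ℕ → Bool)
    (O A : Oracle) (i n : ℕ) : ℕ :=
  idx (List.ofFn (fun j : Fin (D n) => xor (syn lb D O i n j) (ms A i n j)))

theorem pst_lt (lb : ℕ → ℕ → ℕ) (D : ℕ → ℕ) (ms : Oracle → ℕ → ℕ → ℕ → Bool) (O A : Oracle)
    (i n : ℕ) : pst lb D ms O A i n < 2 ^ (D n + 1) := by
  have h := idx_lt (List.ofFn (fun j : Fin (D n) => xor (syn lb D O i n j) (ms A i n j)))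
  rw [List.length_ofFn] at h
  unfold pst
  omega

open Classical in
/-- **The oracle.** -/
theorem exists_orc (lb : ℕ → ℕ → ℕ) (D : ℕ → ℕ) (used : ℕ → ℕ → Prop)
    (ms : Oracle → ℕ → ℕ → ℕ → Bool)
    (hms : ∀ A A' i n, (∀ z : List Bool, z.length ≤ lb i n → A z = A' z) → ms A i n = ms A' i n)
    (O : Oracle) :
    ∃ A : Oracle, (∀ z, A z = if ∃ i n, used i n ∧ z = pos lb i n (pst lb D ms O A i n) then
      !(O z) else O z) ∧ (∀ i n, used i n → ∀ j < D n, syn lb D A i n j = ms A i n j) ∧
      ∀ i n, ¬ used i n → ∀ j, syn lb D A i n j = syn lb D O i n j := by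
  have hpst : ∀ (A A' : Oracle) (i n : ℕ), (∀ z : List Bool, z.length ≤ lb i n → A z = A' z) →
      pst lb D ms O A i n = pst lb D ms O A' i n := by
    intro A A' i n h
    unfold pst
    rw [hms A A' i n h]
  set adv : List Bool → Oracle → Bool := fun z A =>
    if ∃ i n, used i n ∧ z = pos lb i n (pst lb D ms O A i n) then !(O z) else O z with hadv
  have hloc : Loc adv := by
    intro z A A' h
    have h1 : ∀ B B' : Oracle, (∀ z' : List Bool, z'.length < z.length → B z' = B' z') →
        (∃ i n, used i n ∧ z = pos lb i n (pst lb D ms O B i n)) →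
        ∃ i n, used i n ∧ z = pos lb i n (pst lb D ms O B' i n) := by
      rintro B B' hB ⟨i, n, hn, hz⟩
      have h2 : ∀ z' : List Bool, z'.length ≤ lb i n → B z' = B' z' := by
        intro z' hz'
        apply hB
        rw [hz]
        exact lt_of_le_of_lt hz' (pos_len _ _ _ _)
      refine ⟨i, n, hn, ?_⟩
      rw [← hpst B B' i n h2]
      exact hz
    have h2 : (∃ i n, used i n ∧ z = pos lb i n (pst lb D ms O A i n)) ↔
        ∃ i n, used i n ∧ z = pos lb i n (pst lb D ms O A' i n) :=
      ⟨h1 A A' h, h1 A' A fun z' hz' => (h z' hz').symm⟩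
    rw [hadv]
    dsimp only
    simp only [h2]
  have hA : ∀ z, Psi adv (fun _ => (true, false)) z =
      if ∃ i n, used i n ∧
        z = pos lb i n (pst lb D ms O (Psi adv (fun _ => (true, false))) i n) then
        !(O z) else O z := by
    intro z
    rw [Psi_eq hloc]
    rfl
  refine ⟨_, hA, fun i n hn j hj => ?_, fun i n hn j => ?_⟩
  · set A := Psi adv (fun _ => (true, false)) with hAd
    have h1 : syn lb D A i n j = xor (syn lb D O i n j)
        ((str (pst lb D ms O A i n)).getD j false) := by
      unfold syn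
      apply par_flip (pst_lt lb D ms O A i n)
      · intro p _ hp
        rw [hA, if_neg]
        rintro ⟨i', n', _, h2⟩
        obtain ⟨h3, h4, h5⟩ := pos_inj h2
        subst h3
        subst h4
        exact hp h5
      · rw [hA, if_pos ⟨i, n, hn, rfl⟩]
        cases O (pos lb i n (pst lb D ms O A i n)) <;>
          cases (str (pst lb D ms O A i n)).getD j false <;> rfl
    rw [h1]
    have h2 : (str (pst lb D ms O A i n)).getD j false =
        xor (syn lb D O i n j) (ms A i n j) := by
      unfold pst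
      rw [str_idx, List.getD_eq_getElem _ _ (by rw [List.length_ofFn]; exact hj),
        List.getElem_ofFn]
    rw [h2]
    cases syn lb D O i n j <;> cases ms A i n j <;> rfl
  · unfold syn
    apply PM.par_congr
    intro p _
    rw [hA, if_neg]
    rintro ⟨i', n', h1, h2⟩
    obtain ⟨h3, h4, h5⟩ := pos_inj h2
    subst h3
    subst h4
    exact hn h1

/-- the unit number `t` of the machine `i` is available at `n` -/
def av (lb : ℕ → ℕ → ℕ) (G : ℕ → ℕ) (i t n : ℕ) : Prop := Nat.pair i t < G (lb i n)

/-- the block `(i, n)` is used -/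
def used (lb : ℕ → ℕ → ℕ) (G : ℕ → ℕ) (i n : ℕ) : Prop :=
  ∃ t, av lb G i t n ∧ ∀ n' < n, ¬ av lb G i t n'

/-- the number of changes -/
theorem dist_orc {lb : ℕ → ℕ → ℕ} {G : ℕ → ℕ} (hG : Monotone G) {O A : Oracle} {P : ℕ → ℕ → ℕ}
    (hA : ∀ z, (¬ ∃ i n, used lb G i n ∧ z = pos lb i n (P i n)) → A z = O z) (N : ℕ) :
    CH.dist O A N ≤ G N := by
  classical
  set nl : ℕ → ℕ := fun k => if h : ∃ n, av lb G (Nat.unpair k).1 (Nat.unpair k).2 n then
    Nat.find h else 0 with hnl
  have h1 : {x : List Bool | x.length ≤ N ∧ A x ≠ O x} ⊆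
      ((Finset.range (G N)).image (fun k => pos lb (Nat.unpair k).1 (nl k)
        (P (Nat.unpair k).1 (nl k))) : Set (List Bool)) := by
    rintro z ⟨h2, h3⟩
    have h4 : ∃ i n, used lb G i n ∧ z = pos lb i n (P i n) := by
      by_contra hc
      exact h3 (hA z hc)
    obtain ⟨i, n, ⟨t, ht1, ht2⟩, rfl⟩ := h4
    rw [Finset.mem_coe, Finset.mem_image]
    have h5 : nl (Nat.pair i t) = n := by
      have hex : ∃ n, av lb G (Nat.unpair (Nat.pair i t)).1 (Nat.unpair (Nat.pair i t)).2 n := by
        rw [Nat.unpair_pair]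
        exact ⟨n, ht1⟩
      rw [hnl]
      dsimp only
      rw [dif_pos hex]
      apply le_antisymm
      · apply Nat.find_min'
        rw [Nat.unpair_pair]
        exact ht1
      · by_contra hc
        push Not at hc
        have h6 := Nat.find_spec hex
        have h7 := ht2 _ hc
        have h8 : ∀ m, av lb G (Nat.unpair (Nat.pair i t)).1 (Nat.unpair (Nat.pair i t)).2 m →
            av lb G i t m := fun m hm => by rwa [Nat.unpair_pair] at hm
        exact h7 (h8 _ h6)
    refine ⟨Nat.pair i t, ?_, ?_⟩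
    · rw [Finset.mem_range]
      have h6 := pos_len lb i n (P i n)
      exact lt_of_lt_of_le ht1 (hG (by omega))
    · rw [h5, Nat.unpair_pair]
  unfold CH.dist
  calc _ ≤ ((Finset.range (G N)).image (fun k => pos lb (Nat.unpair k).1 (nl k)
        (P (Nat.unpair k).1 (nl k))) : Set (List Bool)).ncard := by
        exact Set.ncard_le_ncard h1 (Finset.finite_toSet _)
    _ ≤ G N := by
        rw [Set.ncard_coe_finset]
        refine Finset.card_image_le.trans ?_
        rw [Finset.card_range]

/-- the blocks are used infinitely often -/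
theorem used_inf {lb : ℕ → ℕ → ℕ} (hlb : ∀ i n, n ≤ lb i n) {G : ℕ → ℕ}
    (hG : Tendsto G atTop atTop) {i : ℕ} : ∀ N, ∃ n ≥ N, used lb G i n := by
  classical
  intro N
  obtain ⟨t, ht⟩ : ∃ t, ∀ n ≤ N, G (lb i n) ≤ Nat.pair i t := by
    obtain ⟨K, hK⟩ : ∃ K, ∀ n ≤ N, G (lb i n) ≤ K :=
      ⟨(Finset.range (N + 1)).sup (fun n => G (lb i n)), fun n hn =>
        Finset.le_sup (f := fun n => G (lb i n)) (Finset.mem_range.2 (by omega))⟩
    exact ⟨K, fun n hn => (hK n hn).trans (Nat.right_le_pair _ _)⟩
  obtain ⟨m, hm⟩ := eventually_atTop.1 (hG.eventually_gt_atTop (Nat.pair i t))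
  have hex : ∃ n, av lb G i t n := ⟨m, hm _ (hlb i m)⟩
  refine ⟨Nat.find hex, ?_, t, Nat.find_spec hex, fun n' hn' => Nat.find_min hex hn'⟩
  by_contra hc
  push Not at hc
  have h1 := Nat.find_spec hex
  have h2 := ht (Nat.find hex) hc.le
  exact absurd h1 (not_lt.2 h2)

/-! ## Random blocks -/

variable (lb : ℕ → ℕ → ℕ) (D : ℕ → ℕ) (i n : ℕ)

theorem measurable_syn (j : ℕ) : Measurable (fun O : Oracle => syn lb D O i n j) := by
  unfold syn
  generalize 2 ^ (D n + 1) = N
  induction N with
  | zero => exact measurable_const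
  | succ N ih =>
    have h1 : (fun O : Oracle => PM.par (N + 1)
        (fun p => O (pos lb i n p) && (str p).getD j false)) = fun O : Oracle =>
        xor (PM.par N (fun p => O (pos lb i n p) && (str p).getD j false))
          (O (pos lb i n N) && (str N).getD j false) := by
      funext O
      rw [PM.par_succ]
    rw [h1]
    have h2 : Measurable (fun O : Oracle => O (pos lb i n N)) := measurable_pi_apply _
    have h3 : Measurable (fun q : Bool × Bool => xor q.1 (q.2 && (str N).getD j false)) :=
      measurable_of_countable _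
    exact h3.comp (ih.prodMk h2)

/-- the block has the digits `v` -/
def EV (m : ℕ) (v : Fin m → Bool) : Set Oracle := {O | ∀ j : Fin m, syn lb D O i n j = v j}

theorem measurableSet_EV (m : ℕ) (v : Fin m → Bool) : MeasurableSet (EV lb D i n m v) := by
  have h1 : EV lb D i n m v = ⋂ j : Fin m, (fun O : Oracle => syn lb D O i n j) ⁻¹' {v j} := by
    ext O
    simp [EV]
  rw [h1]
  exact MeasurableSet.iInter fun j => measurable_syn lb D i n j (measurableSet_singleton _)

theorem measure_EV {m : ℕ} (hm : m ≤ D n) (v : Fin m → Bool) :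
    randomOracle (EV lb D i n m v) = randomOracle (EV lb D i n m (fun _ => false)) := by
  classical
  set p := idx (List.ofFn v) with hp
  have hlen : (str p).length = m := by rw [hp, str_idx, List.length_ofFn]
  have hplt : p < 2 ^ (D n + 1) := by
    have h := idx_lt (List.ofFn v)
    rw [List.length_ofFn] at h
    have h2 : 2 ^ (m + 1) ≤ 2 ^ (D n + 1) := Nat.pow_le_pow_right (by norm_num) (by omega)
    omega
  have hpre : flp {pos lb i n p} ⁻¹' (EV lb D i n m v) = EV lb D i n m (fun _ => false) := by
    ext O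
    have h1 : ∀ j : Fin m, syn lb D (flp {pos lb i n p} O) i n j =
        xor (syn lb D O i n j) (v j) := by
      intro j
      have h2 : (str p).getD j false = v j := by
        rw [hp, str_idx, List.getD_eq_getElem _ _ (by rw [List.length_ofFn]; exact j.2),
          List.getElem_ofFn]
      rw [← h2]
      unfold syn
      apply par_flip hplt
      · intro q _ hq
        have h3 : pos lb i n q ∉ ({pos lb i n p} : Finset (List Bool)) := by
          rw [Finset.mem_singleton]
          exact fun h => hq (pos_inj h).2.2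
        unfold flp
        rw [if_neg h3]
      · unfold flp
        rw [if_pos (Finset.mem_singleton_self _)]
        cases O (pos lb i n p) <;> cases (str p).getD j false <;> rfl
    rw [Set.mem_preimage]
    unfold EV
    rw [Set.mem_ofPred_eq, Set.mem_ofPred_eq]
    refine forall_congr' fun j => ?_
    rw [h1 j]
    cases syn lb D O i n j <;> cases v j <;> simp
  have hmeas : Measurable (flp {pos lb i n p}) := by
    rw [measurable_pi_iff]
    intro z
    unfold flp
    by_cases hz : z ∈ ({pos lb i n p} : Finset (List Bool))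
    · simp only [hz, if_true]
      exact (measurable_of_countable (fun b : Bool => !b)).comp (measurable_pi_apply z)
    · simp only [hz, if_false]
      exact measurable_pi_apply z
  rw [← hpre, ← Measure.map_apply hmeas (measurableSet_EV lb D i n m v), map_flp]

theorem measure_EV_le {m : ℕ} (hm : m ≤ D n) :
    randomOracle (EV lb D i n m (fun _ => false)) ≤ (1 / 2) ^ m := by
  classical
  have h1 : ∑ v : Fin m → Bool, randomOracle (EV lb D i n m v) ≤ 1 := by
    rw [← measure_biUnion_finset]
    · exact prob_le_one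
    · intro v _ w _ hvw
      rw [Function.onFun, Set.disjoint_left]
      intro O h2 h3
      apply hvw
      funext j
      rw [← h2 j, ← h3 j]
    · exact fun v _ => measurableSet_EV lb D i n m v
  simp only [measure_EV lb D i n hm, Finset.sum_const, Finset.card_univ, Fintype.card_fun,
    Fintype.card_bool, Fintype.card_fin, nsmul_eq_mul] at h1
  have h2 : randomOracle (EV lb D i n m (fun _ => false)) ≤ 1 / (2 : ℝ≥0∞) ^ m := by
    rw [ENNReal.le_div_iff_mul_le (Or.inl (by positivity)) (Or.inl (by finiteness)), mul_comm]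
    exact_mod_cast h1
  refine h2.trans ?_
  rw [one_div, one_div, ← ENNReal.inv_pow]

/-- Almost surely no block with a large number looks like a message. -/
theorem ae_blocks (lb : ℕ → ℕ → ℕ) {D m : ℕ → ℕ} (hm : ∀ n, m n ≤ D n) (hm2 : ∀ n, n ≤ m n) :
    ∀ᵐ O ∂randomOracle, ∀ i, ∃ n₀, ∀ n ≥ n₀, ¬ ∀ j < m n, syn lb D O i n j = false := by
  rw [ae_all_iff]
  intro i
  have h1 : ∑' n, randomOracle (EV lb D i n (m n) (fun _ => false)) ≠ ∞ := by
    have h2 : ∑' n, randomOracle (EV lb D i n (m n) (fun _ => false)) ≤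
        ∑' n : ℕ, (1 / 2 : ℝ≥0∞) ^ n :=
      ENNReal.tsum_le_tsum fun n => (measure_EV_le lb D i n (hm n)).trans
        (pow_le_pow_of_le_one (by positivity) (by simp) (hm2 n))
    refine ne_top_of_le_ne_top ?_ h2
    rw [ENNReal.tsum_geometric]
    simp
  filter_upwards [ae_eventually_notMem h1] with O hO
  obtain ⟨n₀, hn₀⟩ := eventually_atTop.1 hO
  exact ⟨n₀, fun n hn h => hn₀ n hn fun j => h j j.2⟩

end Pool.Agent.W900.BJ
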